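import Pool.Agent.Helper40.PR.Defs2
import Pool.Agent.Helper26.PR.TK6
import Pool.Agent.Helper73.PR.TK8
import Pool.Agent.Helper54.PR.TK10
import Pool.Agent.Helper54.PR.TK5

/-!
# PR-CD3: the degenerate case of the recognition theorem
-/

set_option autoImplicit false

namespace PR

open ContinuousLinearMap

section cd3

variable {X : Type*} [NormedAddCommGroup X] [NormedSpace ℂ X]

/-- In dimension at least three there is a vector outside every line. -/
theorem cd3_exists_off {X : Type*} [NormedAddCommGroup X] [NormedSpace ℂ X]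
    (hX : Dim3 X) (u : X) : ∃ v : X, ∀ c : ℂ, v ≠ c • u := by
  obtain ⟨v, hv⟩ := hX
  by_contra hcon
  push Not at hcon
  obtain ⟨c0, hc0⟩ := hcon (v 0)
  obtain ⟨c1, hc1⟩ := hcon (v 1)
  have h01 : LinearIndependent ℂ ![v 0, v 1] := by
    have h5 := hv.comp ![(0 : Fin 3), 1] (by decide)
    have h6 : v ∘ ![(0 : Fin 3), 1] = ![v 0, v 1] := by
      funext i
      fin_cases i <;> rfl
    rw [h6] at h5
    exact h5
  rw [LinearIndependent.pair_iff] at h01
  have h2 := h01 c1 (-c0) (by rw [hc0, hc1, smul_smul, neg_smul, smul_smul, mul_comm, add_neg_cancel])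
  have h3 : c0 = 0 := neg_eq_zero.1 h2.2
  have h4 := h01 1 0 (by rw [hc0, h3]; simp)
  exact one_ne_zero h4.1

theorem cd3_mem_span {u : X} {f g : X →L[ℂ] ℂ} {l m : ℂ} {C : ℂ → (X →L[ℂ] X)}
    (h : ∀ (y : X) (e : X →L[ℂ] ℂ), e y = 0 →
      PhaseFam (e ((l • (1 : X →L[ℂ] X) + rk u f) y)) (e ((m • (1 : X →L[ℂ] X) + rk u g) y))
        (fun s => e (C s y))) (s : ℂ) (y : X) : C s y ∈ Submodule.span ℂ {y, u} := by
  by_contra hcon
  have hr : Set.range ![y, u] = {y, u} := by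
    simp [Matrix.range_cons, Matrix.range_empty, Set.pair_comm]
  rw [← hr] at hcon
  obtain ⟨e, he0, he1⟩ := exists_dual_sep hcon
  have hey : e y = 0 := he0 0
  have heu : e u = 0 := he0 1
  obtain ⟨a, b, ha, hb, hs⟩ := h y e hey
  have h1 : e ((l • (1 : X →L[ℂ] X) + rk u f) y) = 0 := by
    simp [hey, heu]
  have h2 : e ((m • (1 : X →L[ℂ] X) + rk u g) y) = 0 := by
    simp [hey, heu]
  rw [h1, norm_zero] at ha
  rw [h2, norm_zero] at hb
  have ha0 : a = 0 := norm_eq_zero.1 ha.symm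
  have hb0 : b = 0 := norm_eq_zero.1 hb.symm
  have h3 := hs s
  simp only [ha0, hb0, mul_zero, add_zero, norm_zero, norm_eq_zero] at h3
  rw [he1] at h3
  exact one_ne_zero h3

theorem cd_claim_deg (hX : Dim3 X) {l m : ℂ} {u : X} {f g : X →L[ℂ] ℂ} (hu : u ≠ 0)
    (hfg : LinearIndependent ℂ ![f, g]) {C : ℂ → (X →L[ℂ] X)}
    (h : ∀ (y : X) (e : X →L[ℂ] ℂ), e y = 0 →
      PhaseFam (e ((l • (1 : X →L[ℂ] X) + rk u f) y)) (e ((m • (1 : X →L[ℂ] X) + rk u g) y))
        (fun s => e (C s y))) :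
    ∃ k : ℂ → ℂ, (∀ s s', ‖k s - k s'‖ = ‖s - s'‖) ∧
      ∀ s, ∃ p γ : ℂ, ‖p‖ = 1 ∧ C s = p • (rk u f + k s • rk u g) + γ • (1 : X →L[ℂ] X) := by
  have h1 : ∀ s, ∃ (γ : ℂ) (κ : X →L[ℂ] ℂ), C s = γ • (1 : X →L[ℂ] X) + rk u κ := fun s =>
    scalar_mod_vector (C s) u hX (cd3_mem_span h s)
  choose γ κ hC using h1
  -- phase families off the line of `u`
  have h2 : ∀ y : X, (∀ c : ℂ, y ≠ c • u) → PhaseFam (f y) (g y) (fun s => κ s y) := by
    intro y hy
    have hli : LinearIndependent ℂ ![u, y] := by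
      rw [LinearIndependent.pair_iff' hu]
      intro c hc
      exact hy c hc.symm
    obtain ⟨e, he⟩ := exists_dual_fin hli ![1, 0]
    have heu : e u = 1 := he 0
    have hey : e y = 0 := he 1
    have h3 := h y e hey
    have e1 : e ((l • (1 : X →L[ℂ] X) + rk u f) y) = f y := by simp [hey, heu]
    have e2 : e ((m • (1 : X →L[ℂ] X) + rk u g) y) = g y := by simp [hey, heu]
    have e3 : (fun s => e (C s y)) = fun s => κ s y := by
      funext s
      rw [hC s]
      simp [hey, heu]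
    rw [e1, e2, e3] at h3
    exact h3
  -- and everywhere
  have h3 : ∀ y : X, PhaseFam (f y) (g y) (fun s => κ s y) := by
    intro y
    by_cases hy : ∀ c : ℂ, y ≠ c • u
    · exact h2 y hy
    push Not at hy
    obtain ⟨c, hc⟩ := hy
    obtain ⟨v, hv⟩ := cd3_exists_off hX u
    have hseq : ∀ n : ℕ, ∀ d : ℂ, y + ((n : ℂ) + 1)⁻¹ • v ≠ d • u := by
      intro n d hd
      have hn : ((n : ℂ) + 1) ≠ 0 := Nat.cast_add_one_ne_zero n
      apply hv (((n : ℂ) + 1) * (d - c))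
      have h4 : ((n : ℂ) + 1)⁻¹ • v = (d - c) • u := by
        rw [sub_smul, ← hd, hc]; abel
      rw [mul_smul, ← h4, smul_smul, mul_inv_cancel₀ hn, one_smul]
    have hlim : Filter.Tendsto (fun n : ℕ => y + ((n : ℂ) + 1)⁻¹ • v) Filter.atTop (nhds y) := by
      have h5 : Filter.Tendsto (fun n : ℕ => ((n : ℂ) + 1)⁻¹) Filter.atTop (nhds 0) := by
        have := tendsto_one_div_add_atTop_nhds_zero_nat (𝕜 := ℂ)
        simpa [one_div] using this
      have h6 : Filter.Tendsto (fun n : ℕ => y + ((n : ℂ) + 1)⁻¹ • v) Filter.atTop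
          (nhds (y + (0 : ℂ) • v)) := tendsto_const_nhds.add (h5.smul_const v)
      simpa using h6
    exact phase_closed (F := fun s n => κ s (y + ((n : ℂ) + 1)⁻¹ • v)) (F' := fun s => κ s y)
      (U := fun n => f (y + ((n : ℂ) + 1)⁻¹ • v)) (W := fun n => g (y + ((n : ℂ) + 1)⁻¹ • v))
      (fun n => h2 _ (hseq n))
      (fun s => ((κ s).continuous.tendsto y).comp hlim)
      ((f.continuous.tendsto y).comp hlim) ((g.continuous.tendsto y).comp hlim)
  have hUW : ∀ α β : ℂ, ∃ x : X, (f : X →ₗ[ℂ] ℂ) x = α ∧ (g : X →ₗ[ℂ] ℂ) x = β := by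
    intro α β
    obtain ⟨x, hx⟩ := exists_vec_fin hfg ![α, β]
    exact ⟨x, hx 0, hx 1⟩
  obtain ⟨κ0, hκ0, hw⟩ := wigner_two (G := X) (f : X →ₗ[ℂ] ℂ) (g : X →ₗ[ℂ] ℂ)
    (fun s => ((κ s : X →L[ℂ] ℂ) : X →ₗ[ℂ] ℂ)) hUW h3
  rcases hw with hw | hw
  · refine ⟨fun s => κ0 * s, ?_, ?_⟩
    · intro s s'
      rw [← mul_sub, norm_mul, hκ0, one_mul]
    · intro s
      obtain ⟨p, hp, hps⟩ := hw s
      refine ⟨p, γ s, hp, ?_⟩
      rw [hC s]
      ext z
      have h4 := LinearMap.congr_fun hps z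
      have h5 : κ s z = p * (f z + κ0 * s * g z) := h4
      simp only [add_apply, smul_apply, rk_apply, one_apply_eq_self, h5]
      module
  · refine ⟨fun s => κ0 * (starRingEnd ℂ) s, ?_, ?_⟩
    · intro s s'
      rw [← mul_sub, norm_mul, hκ0, one_mul, ← map_sub, RCLike.norm_conj]
    · intro s
      obtain ⟨p, hp, hps⟩ := hw s
      refine ⟨p, γ s, hp, ?_⟩
      rw [hC s]
      ext z
      have h4 := LinearMap.congr_fun hps z
      have h5 : κ s z = p * (f z + κ0 * (starRingEnd ℂ) s * g z) := h4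
      simp only [add_apply, smul_apply, rk_apply, one_apply_eq_self, h5]
      module

/-- degenerate case of the first order identity -/
theorem nilp_of_id1_deg {u : X} {f g : X →L[ℂ] ℂ} (hu : u ≠ 0)
    (hfg : LinearIndependent ℂ ![f, g]) (h : Id1 (rk u f) (rk u g)) : f u = 0 ∧ g u = 0 := by
  have key : ∀ y : X, y ≠ 0 → g y * f u = f y * g u := by
    intro y hy
    have hex : ∃ e : X →L[ℂ] ℂ, e y ≠ 0 ∧ e u ≠ 0 := by
      obtain ⟨e1, he1⟩ := SeparatingDual.exists_ne_zero (R := ℂ) hy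
      obtain ⟨e2, he2⟩ := SeparatingDual.exists_ne_zero (R := ℂ) hu
      by_cases h1 : e1 u = 0
      · by_cases h2 : e2 y = 0
        · exact ⟨e1 + e2, by simpa [h2] using he1, by simpa [h1] using he2⟩
        · exact ⟨e2, h2, he2⟩
      · exact ⟨e1, he1, h1⟩
    obtain ⟨e, hey, heu⟩ := hex
    have h1 := h y e
    simp only [rk_apply, map_smul, smul_eq_mul] at h1
    have h2 : (e y * e u * (g y * f u - f y * g u)) ^ 2 = 0 := by
      linear_combination h1
    have h3 := pow_eq_zero_iff (two_ne_zero) |>.1 h2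
    rcases mul_eq_zero.1 h3 with h4 | h4
    · exact absurd h4 (mul_ne_zero hey heu)
    · exact sub_eq_zero.1 h4
  obtain ⟨x, hx⟩ := exists_vec_fin hfg ![1, 0]
  obtain ⟨z, hz⟩ := exists_vec_fin hfg ![0, 1]
  have hx1 : f x = 1 := hx 0
  have hx2 : g x = 0 := hx 1
  have hz1 : f z = 0 := hz 0
  have hz2 : g z = 1 := hz 1
  have hx0 : x ≠ 0 := by rintro rfl; simp at hx1
  have hz0 : z ≠ 0 := by rintro rfl; simp at hz2
  have k1 := key x hx0
  have k2 := key z hz0
  rw [hx1, hx2, zero_mul, one_mul] at k1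
  rw [hz1, hz2, zero_mul, one_mul] at k2
  exact ⟨k2, k1.symm⟩

end cd3

end PR
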