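import Pool.Agent.Helper40.PR.Defs3
import Pool.Agent.Helper59.PR.TK2
import Pool.Agent.Helper28.PR.E1
import Pool.Agent.Helper8.PR.E4A

/-!
# PR-E7: normalised preservers, self-adjoint operators and rank one operators with orthogonal data
-/

set_option autoImplicit false

namespace PR

open ContinuousLinearMap InnerProductSpace Complex

open scoped ComplexConjugate

section e7

variable {H : Type*} [NormedAddCommGroup H] [InnerProductSpace ℂ H] [CompleteSpace H]
variable {φ : (H →L[ℂ] H) → (H →L[ℂ] H)}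

theorem e7_nontrivial (hH : Dim2 H) : Nontrivial H := by
  obtain ⟨v, hv⟩ := hH
  exact ⟨v 0, 0, hv.ne_zero 0⟩

/-- first slot test operators -/
theorem e7_P_slot1 (hφ : NormE φ) (S : H →L[ℂ] H) {x : H} (hx : ‖x‖ = 1) :
    sr (skb (po x x) (φ S)) = sr (skb (po x x) S) := by
  have h := hφ.pres (po x x) S
  rcases hφ.hP x hx with h1 | h1
  · rwa [h1] at h
  · rwa [h1, e_neg_left] at h

theorem e7_iP_slot1 (hφ : NormE φ) (S : H →L[ℂ] H) {x : H} (hx : ‖x‖ = 1) :
    sr (skb (I • po x x) (φ S)) = sr (skb (I • po x x) S) := by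
  have h := hφ.pres (I • po x x) S
  rcases hφ.hiP x hx with h1 | h1
  · rwa [h1] at h
  · rwa [h1, e_neg_left] at h

/-- second slot test operators -/
theorem e7_P_slot2 (hφ : NormE φ) (T : H →L[ℂ] H) {x : H} (hx : ‖x‖ = 1) :
    sr (skb (φ T) (po x x)) = sr (skb T (po x x)) := by
  have h := hφ.pres T (po x x)
  rcases hφ.hP x hx with h1 | h1
  · rwa [h1] at h
  · rw [h1, show -po x x = (-1 : ℂ) • po x x by rw [neg_smul, one_smul], e_smul_right, norm_neg,
      norm_one, one_mul] at h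
    exact h

theorem e7_sa_im {A : H →L[ℂ] H} (hA : IsSelfAdjoint A) (x : H) :
    inner ℂ x (A x) = (((inner ℂ x (A x)).re : ℝ) : ℂ) := by
  have h1 : (starRingEnd ℂ) (inner ℂ x (A x)) = inner ℂ x (A x) := by
    rw [inner_conj_symm]
    have h2 := ContinuousLinearMap.adjoint_inner_left A x x
    rw [← ContinuousLinearMap.star_eq_adjoint, hA.star_eq] at h2
    exact h2
  exact (Complex.conj_eq_iff_re.1 h1).symm

theorem e7_sa_sq {A : H →L[ℂ] H} (hA : IsSelfAdjoint A) (x : H) :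
    inner ℂ x (A (A x)) = ((‖A x‖ ^ 2 : ℝ) : ℂ) := by
  have h2 := ContinuousLinearMap.adjoint_inner_left A (A x) x
  rw [← ContinuousLinearMap.star_eq_adjoint, hA.star_eq] at h2
  rw [← h2, inner_self_eq_norm_sq_to_K]
  push_cast
  rfl

/-- the number `|s| + √(‖A x‖²)` -/
theorem e7_Rt_sa (s t : ℝ) (ht : 0 ≤ t) :
    Rt (2 * (s : ℂ)) ((s : ℂ) ^ 2 - ((t ^ 2 : ℝ) : ℂ)) = |s| + t := by
  rw [Rt_eq (l1 := ((s + t : ℝ) : ℂ)) (l2 := ((s - t : ℝ) : ℂ)) (by push_cast; ring)
    (by push_cast; ring)]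
  rw [Complex.norm_real, Complex.norm_real, Real.norm_eq_abs, Real.norm_eq_abs]
  rcases abs_cases s with h | h <;> rcases abs_cases (s + t) with h1 | h1 <;>
    rcases abs_cases (s - t) with h2 | h2 <;> rcases max_cases |s + t| |s - t| with h3 | h3 <;>
    linarith

theorem e7_abs_eq {s s' t t' : ℝ} (ht : 0 ≤ t) (ht' : 0 ≤ t')
    (h1 : t ^ 2 - s ^ 2 = t' ^ 2 - s' ^ 2) (h2 : |s| + t = |s'| + t') : |s| = |s'| := by
  have h3 : (t - |s|) * (t + |s|) = (t' - |s'|) * (t' + |s'|) := by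
    have e1 := sq_abs s
    have e2 := sq_abs s'
    nlinarith
  have h4 : t + |s| = t' + |s'| := by linarith
  rw [h4] at h3
  by_cases h0 : t' + |s'| = 0
  · have := abs_nonneg s
    have := abs_nonneg s'
    linarith
  · have h5 := mul_right_cancel₀ h0 h3
    linarith

theorem e_sa_fixed (hφ : NormE φ) (hH : Dim2 H) {A : H →L[ℂ] H} (hA : IsSelfAdjoint A) :
    φ A = A ∨ φ A = -A := by
  have _ := e7_nontrivial hH
  have hB : IsSelfAdjoint (φ A) := (e_sa_iff hφ.toPresE A).1 hA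
  refine sa_pm hB hA ?_
  intro x hx
  have h1 := e7_P_slot1 hφ A hx
  have h2 := e7_iP_slot1 hφ A hx
  have h3 := e_P_test (φ A) hx
  rw [h1, e_P_test A hx, e7_sa_sq hA, e7_sa_sq hB, e7_sa_im hA, e7_sa_im hB] at h3
  rw [e_iP_test (φ A) hx, e_iP_test A hx, e7_sa_sq hA, e7_sa_sq hB, e7_sa_im hA, e7_sa_im hB,
    e7_Rt_sa _ _ (norm_nonneg _), e7_Rt_sa _ _ (norm_nonneg _)] at h2
  set s := (inner ℂ x (A x)).re with hs
  set s' := (inner ℂ x ((φ A) x)).re with hs'
  have k1 : ∀ {C : H →L[ℂ] H}, IsSelfAdjoint C → (inner ℂ x (C x)).re ^ 2 ≤ ‖C x‖ ^ 2 := by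
    intro C hC
    have h4 : ‖inner ℂ x (C x)‖ ≤ ‖x‖ * ‖C x‖ := norm_inner_le_norm x (C x)
    rw [hx, one_mul] at h4
    have h5 := Complex.abs_re_le_norm (inner ℂ x (C x))
    have h6 : |(inner ℂ x (C x)).re| ≤ ‖C x‖ := h5.trans h4
    rw [← sq_abs]
    exact pow_le_pow_left₀ (abs_nonneg _) h6 2
  have kA := k1 hA
  have kB := k1 hB
  rw [← hs] at kA
  rw [← hs'] at kB
  have e1 : ((‖A x‖ ^ 2 : ℝ) : ℂ) - (s : ℂ) ^ 2 = ((‖A x‖ ^ 2 - s ^ 2 : ℝ) : ℂ) := by push_cast; ring
  have e2 : ((‖(φ A) x‖ ^ 2 : ℝ) : ℂ) - (s' : ℂ) ^ 2 = ((‖(φ A) x‖ ^ 2 - s' ^ 2 : ℝ) : ℂ) := by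
    push_cast; ring
  rw [e1, e2, Complex.norm_real, Complex.norm_real, Real.norm_of_nonneg (by linarith),
    Real.norm_of_nonneg (by linarith)] at h3
  rw [e7_sa_im hA, e7_sa_im hB, Complex.norm_real, Complex.norm_real, Real.norm_eq_abs,
    Real.norm_eq_abs, ← hs, ← hs']
  exact e7_abs_eq (norm_nonneg _) (norm_nonneg _) h3.symm h2

/-- polarization on the orthogonal complement of a vector -/
theorem e7_polar (S : H →L[ℂ] H) (x : H)
    (h : ∀ v : H, inner ℂ x v = 0 → inner ℂ v (S v) = 0) {z w : H}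
    (hz : inner ℂ x z = 0) (hw : inner ℂ x w = 0) : inner ℂ z (S w) = 0 := by
  have h' : ∀ v : H, inner ℂ x v = 0 → inner ℂ (S v) v = 0 := by
    intro v hv
    rw [← inner_conj_symm, h v hv, map_zero]
  have key := inner_map_polarization (S : H →ₗ[ℂ] H) z w
  have e1 := h' (z + w) (by rw [inner_add_right, hz, hw, add_zero])
  have e2 := h' (z - w) (by rw [inner_sub_right, hz, hw, sub_zero])
  have e3 := h' (z + I • w) (by rw [inner_add_right, inner_smul_right, hz, hw, mul_zero, add_zero])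
  have e4 := h' (z - I • w) (by rw [inner_sub_right, inner_smul_right, hz, hw, mul_zero, sub_zero])
  simp only [ContinuousLinearMap.coe_coe] at key
  rw [e1, e2, e3, e4] at key
  rw [← inner_conj_symm, key]
  simp

theorem e7_tests_zero (hφ : NormE φ) {x y : H} (h : inner ℂ x y = 0) {v : H} 
    (hv : inner ℂ x v = 0 ∨ inner ℂ y v = 0) :
    inner ℂ v (φ (po x y) v) = 0 ∧ inner ℂ v (φ (po x y) (φ (po x y) v)) = 0 := by
  have hyx : inner ℂ y x = 0 := by rw [← inner_conj_symm, h, map_zero]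
  -- unit vectors
  have hunit : ∀ z : H, ‖z‖ = 1 → (inner ℂ x z = 0 ∨ inner ℂ y z = 0) →
      inner ℂ z (φ (po x y) z) = 0 ∧ inner ℂ z (φ (po x y) (φ (po x y) z)) = 0 := by
    intro z hz hv
    have e1 : inner ℂ z (po x y z) = 0 := by
      rw [po_apply, inner_smul_right]
      rcases hv with hv | hv
      · rw [← inner_conj_symm z x, hv, map_zero, mul_zero]
      · rw [hv, zero_mul]
    have e2 : inner ℂ z (po x y (po x y z)) = 0 := by
      rw [po_apply, po_apply, inner_smul_right y, hyx, mul_zero, zero_smul, inner_zero_right]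
    have h1 := e_P_test (φ (po x y)) hz
    rw [e7_P_slot1 hφ (po x y) hz, e_P_test (po x y) hz, e1, e2] at h1
    have h2 := e_iP_test (φ (po x y)) hz
    rw [e7_iP_slot1 hφ (po x y) hz, e_iP_test (po x y) hz, e1, e2] at h2
    have h3 : inner ℂ z (φ (po x y) (φ (po x y) z)) - inner ℂ z (φ (po x y) z) ^ 2 = 0 := by
      have h4 : ‖inner ℂ z (φ (po x y) (φ (po x y) z)) - inner ℂ z (φ (po x y) z) ^ 2‖ = 0 := by
        rw [← h1]; simp
      exact norm_eq_zero.1 h4
    have h5 : inner ℂ z (φ (po x y) z) ^ 2 - inner ℂ z (φ (po x y) (φ (po x y) z)) = 0 := by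
      linear_combination -h3
    rw [h5, Rt_zero_right] at h2
    have h6 : Rt (2 * 0) ((0 : ℂ) ^ 2 - 0) = 0 := by
      rw [mul_zero, sub_zero, zero_pow two_ne_zero, Rt_zero_right, norm_zero]
    rw [h6] at h2
    have h7 : inner ℂ z (φ (po x y) z) = 0 := by
      have h8 := norm_eq_zero.1 h2.symm
      rcases mul_eq_zero.1 h8 with h9 | h9
      · norm_num at h9
      · exact h9
    refine ⟨h7, ?_⟩
    rw [h7] at h3
    linear_combination h3
  by_cases hv0 : v = 0
  · subst hv0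
    simp
  have hn : ‖v‖ ≠ 0 := norm_ne_zero_iff.2 hv0
  set z : H := ((‖v‖⁻¹ : ℝ) : ℂ) • v with hzdef
  have hz1 : ‖z‖ = 1 := by
    rw [hzdef, norm_smul, Complex.norm_real, Real.norm_of_nonneg (by positivity)]
    exact inv_mul_cancel₀ hn
  have hvz : v = ((‖v‖ : ℝ) : ℂ) • z := by
    rw [hzdef, smul_smul, ← Complex.ofReal_mul, mul_inv_cancel₀ hn, Complex.ofReal_one, one_smul]
  have hv' : inner ℂ x z = 0 ∨ inner ℂ y z = 0 := by
    rcases hv with hv | hv
    · left; rw [hzdef, inner_smul_right, hv, mul_zero]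
    · right; rw [hzdef, inner_smul_right, hv, mul_zero]
  obtain ⟨h1, h2⟩ := hunit z hz1 hv'
  constructor
  · rw [hvz, map_smul, inner_smul_left, inner_smul_right, h1, mul_zero, mul_zero]
  · rw [hvz, map_smul, map_smul, inner_smul_left, inner_smul_right, h2, mul_zero, mul_zero]

/-- the unit vector `(3 x + 4 y) / 5` -/
theorem e7_unit {x y : H} (hx : ‖x‖ = 1) (hy : ‖y‖ = 1) (h : inner ℂ x y = 0) {a b : ℝ}
    (hab : a ^ 2 + b ^ 2 = 1) : ‖(a : ℂ) • x + (b : ℂ) • y‖ = 1 := by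
  have h1 : inner ℂ ((a : ℂ) • x + (b : ℂ) • y) ((a : ℂ) • x + (b : ℂ) • y) = 1 := by
    have hyx : inner ℂ y x = 0 := by rw [← inner_conj_symm, h, map_zero]
    have hxx : inner ℂ x x = 1 := by rw [inner_self_eq_norm_sq_to_K, hx]; simp
    have hyy : inner ℂ y y = 1 := by rw [inner_self_eq_norm_sq_to_K, hy]; simp
    rw [inner_add_left, inner_add_right, inner_add_right]
    simp only [inner_smul_left, inner_smul_right, h, hyx, hxx, hyy, Complex.conj_ofReal]
    have : ((a ^ 2 + b ^ 2 : ℝ) : ℂ) = 1 := by rw [hab]; simp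
    push_cast at this
    linear_combination this
  rw [inner_self_eq_norm_sq_to_K] at h1
  have h2 : ‖(a : ℂ) • x + (b : ℂ) • y‖ ^ 2 = 1 := by
    have h3 : (((‖(a : ℂ) • x + (b : ℂ) • y‖ ^ 2 : ℝ)) : ℂ) = ((1 : ℝ) : ℂ) := by
      rw [Complex.ofReal_pow, Complex.ofReal_one]
      exact h1
    exact Complex.ofReal_injective h3
  nlinarith [norm_nonneg ((a : ℂ) • x + (b : ℂ) • y)]

theorem e_po_weak (hφ : NormE φ) (hH : Dim2 H) {x y : H} (hx : ‖x‖ = 1) (hy : ‖y‖ = 1)
    (h : inner ℂ x y = 0) :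
    ∃ k : ℂ, ‖k‖ = 1 ∧ (φ (po x y) = k • po x y ∨ φ (po x y) = k • po y x) := by
  have _ := hH
  have hyx : inner ℂ y x = 0 := by rw [← inner_conj_symm, h, map_zero]
  have hxx : inner ℂ x x = 1 := by rw [inner_self_eq_norm_sq_to_K, hx]; simp
  have hyy : inner ℂ y y = 1 := by rw [inner_self_eq_norm_sq_to_K, hy]; simp
  set S := φ (po x y) with hS
  have hx1 : ∀ {z w : H}, inner ℂ x z = 0 → inner ℂ x w = 0 → inner ℂ z (S w) = 0 := by
    intro z w hz hw
    exact e7_polar S x (fun v hv => (e7_tests_zero hφ h (Or.inl hv)).1) hz hw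
  have hy1 : ∀ {z w : H}, inner ℂ y z = 0 → inner ℂ y w = 0 → inner ℂ z (S w) = 0 := by
    intro z w hz hw
    exact e7_polar S y (fun v hv => (e7_tests_zero hφ h (Or.inr hv)).1) hz hw
  have hsq := (e7_tests_zero hφ h (v := y) (Or.inl h)).2
  -- components
  have cx : ∀ w : H, inner ℂ x w = 0 → S w = inner ℂ x (S w) • x := by
    intro w hw
    rw [← sub_eq_zero]
    rw [← inner_self_eq_zero (𝕜 := ℂ)]
    have h1 : inner ℂ x (S w - inner ℂ x (S w) • x) = 0 := by
      rw [inner_sub_right, inner_smul_right, hxx, mul_one, sub_self]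
    have h2 := hx1 h1 hw
    rw [inner_sub_right, inner_smul_right, h2]
    rw [← inner_conj_symm _ x, h1, map_zero, mul_zero, sub_zero]
  have cy : ∀ w : H, inner ℂ y w = 0 → S w = inner ℂ y (S w) • y := by
    intro w hw
    rw [← sub_eq_zero]
    rw [← inner_self_eq_zero (𝕜 := ℂ)]
    have h1 : inner ℂ y (S w - inner ℂ y (S w) • y) = 0 := by
      rw [inner_sub_right, inner_smul_right, hyy, mul_one, sub_self]
    have h2 := hy1 h1 hw
    rw [inner_sub_right, inner_smul_right, h2]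
    rw [← inner_conj_symm _ y, h1, map_zero, mul_zero, sub_zero]
  set a := inner ℂ x (S y) with ha
  set b := inner ℂ y (S x) with hb
  have hSy : S y = a • x := cx y h
  have hSx : S x = b • y := cy x hyx
  have hab : a * b = 0 := by
    rw [← hS, hSy, map_smul, hSx, inner_smul_right, inner_smul_right, hyy, mul_one] at hsq
    exact hsq
  have hSz : ∀ z : H, S z = (inner ℂ y z * a) • x + (inner ℂ x z * b) • y := by
    intro z
    set w := z - inner ℂ x z • x - inner ℂ y z • y with hw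
    have w1 : inner ℂ x w = 0 := by
      rw [hw, inner_sub_right, inner_sub_right, inner_smul_right, inner_smul_right, hxx, h]
      ring
    have w2 : inner ℂ y w = 0 := by
      rw [hw, inner_sub_right, inner_sub_right, inner_smul_right, inner_smul_right, hyy, hyx]
      ring
    have w3 : S w = 0 := by
      have e1 := cx w w1
      have e2 := cy w w2
      have e3 : inner ℂ x (S w) = 0 := by
        rw [e2, inner_smul_right, h, mul_zero]
      rw [e1, e3, zero_smul]
    have hz : z = w + inner ℂ x z • x + inner ℂ y z • y := by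
      rw [hw]; abel
    calc S z = S (w + inner ℂ x z • x + inner ℂ y z • y) := by rw [← hz]
      _ = inner ℂ x z • (b • y) + inner ℂ y z • (a • x) := by
          rw [map_add, map_add, map_smul, map_smul, w3, hSy, hSx, zero_add]
      _ = (inner ℂ y z * a) • x + (inner ℂ x z * b) • y := by
          rw [smul_smul, smul_smul, add_comm]
  -- the modulus
  set z0 : H := ((3 / 5 : ℝ) : ℂ) • x + ((4 / 5 : ℝ) : ℂ) • y with hz0
  have hz0n : ‖z0‖ = 1 := e7_unit hx hy h (by norm_num)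
  have x0 : inner ℂ x z0 = 3 / 5 := by
    rw [hz0, inner_add_right, inner_smul_right, inner_smul_right, hxx, h]; push_cast; ring
  have y0 : inner ℂ y z0 = 4 / 5 := by
    rw [hz0, inner_add_right, inner_smul_right, inner_smul_right, hyy, hyx]; push_cast; ring
  have x0' : inner ℂ z0 x = 3 / 5 := by
    rw [← inner_conj_symm, x0, map_div₀, map_ofNat, map_ofNat]
  have y0' : inner ℂ z0 y = 4 / 5 := by
    rw [← inner_conj_symm, y0, map_div₀, map_ofNat, map_ofNat]
  have ht := e_P_test S hz0n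
  rw [hS, e7_P_slot1 hφ (po x y) hz0n, e_P_test (po x y) hz0n, ← hS] at ht
  have l1 : inner ℂ z0 (po x y z0) = 12 / 25 := by
    rw [po_apply, inner_smul_right, y0, x0']; norm_num
  have l2 : inner ℂ z0 (po x y (po x y z0)) = 0 := by
    rw [po_apply, po_apply, inner_smul_right y, hyx, mul_zero, zero_smul, inner_zero_right]
  have l3 : inner ℂ z0 (S z0) = (12 / 25) * (a + b) := by
    rw [hSz z0, inner_add_right, inner_smul_right, inner_smul_right, x0, y0, x0', y0']; ring
  have l4 : inner ℂ z0 (S (S z0)) = 0 := by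
    rw [hSz z0, map_add, map_smul, map_smul, hSx, hSy, inner_add_right, inner_smul_right,
      inner_smul_right, inner_smul_right, inner_smul_right, x0', y0']
    linear_combination (inner ℂ y z0 * (4 / 5) + inner ℂ x z0 * (3 / 5)) * hab
  rw [l1, l2, l3, l4] at ht
  have hn : ‖a + b‖ = 1 := by
    have e1 : ‖(0 : ℂ) - (12 / 25) ^ 2‖ = (12 / 25) ^ 2 := by
      rw [zero_sub, norm_neg, norm_pow, norm_div]; norm_num
    have e2 : ‖(0 : ℂ) - ((12 / 25) * (a + b)) ^ 2‖ = (12 / 25) ^ 2 * ‖a + b‖ ^ 2 := by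
      rw [zero_sub, norm_neg, norm_pow, norm_mul, norm_div, mul_pow]; norm_num
    rw [e1, e2] at ht
    have e3 : ‖a + b‖ ^ 2 = 1 := by
      have : (12 / 25 : ℝ) ^ 2 * (‖a + b‖ ^ 2 - 1) = 0 := by linarith
      rcases mul_eq_zero.1 this with h1 | h1
      · norm_num at h1
      · linarith
    nlinarith [norm_nonneg (a + b)]
  rcases mul_eq_zero.1 hab with h0 | h0
  · refine ⟨b, by rw [h0, zero_add] at hn; exact hn, Or.inr ?_⟩
    ext z
    rw [hSz z, h0, smul_apply, po_apply, mul_zero, zero_smul, zero_add, smul_smul, mul_comm]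
  · refine ⟨a, by rw [h0, add_zero] at hn; exact hn, Or.inl ?_⟩
    ext z
    rw [hSz z, h0, smul_apply, po_apply, mul_zero, zero_smul, add_zero, smul_smul, mul_comm]

theorem e_po_fixed (hφ : NormE φ) (hH : Dim2 H) {x y : H} (hx : ‖x‖ = 1) (hy : ‖y‖ = 1)
    (h : inner ℂ x y = 0) : φ (po x y) = po x y ∨ φ (po x y) = -po x y := by
  obtain ⟨k, hk, hk2⟩ := e_po_weak hφ hH hx hy h
  have hyx : inner ℂ y x = 0 := by rw [← inner_conj_symm, h, map_zero]
  have hxx : inner ℂ x x = 1 := by rw [inner_self_eq_norm_sq_to_K, hx]; simp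
  have hyy : inner ℂ y y = 1 := by rw [inner_self_eq_norm_sq_to_K, hy]; simp
  have hk3 : k.re ^ 2 + k.im ^ 2 = 1 := by
    have h1 := Complex.sq_norm k
    rw [hk, Complex.normSq_apply] at h1
    nlinarith
  rcases hk2 with hk2 | hk2
  · -- the good case
    set z0 : H := ((3 / 5 : ℝ) : ℂ) • x + ((4 / 5 : ℝ) : ℂ) • y with hz0
    have hz0n : ‖z0‖ = 1 := e7_unit hx hy h (by norm_num)
    have y0 : inner ℂ y z0 = 4 / 5 := by
      rw [hz0, inner_add_right, inner_smul_right, inner_smul_right, hyy, hyx]; push_cast; ring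
    have x0 : inner ℂ x z0 = 3 / 5 := by
      rw [hz0, inner_add_right, inner_smul_right, inner_smul_right, hxx, h]; push_cast; ring
    have x0' : inner ℂ z0 x = 3 / 5 := by
      rw [← inner_conj_symm, x0, map_div₀, map_ofNat, map_ofNat]
    have ht := e7_P_slot2 hφ (po x y) hz0n
    rw [e_test_P _ hz0n, e_test_P _ hz0n, hk2] at ht
    have l1 : inner ℂ z0 (po x y z0) = 12 / 25 := by
      rw [po_apply, inner_smul_right, y0, x0']; norm_num
    have l2 : ‖po x y z0‖ = 4 / 5 := by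
      rw [po_apply, norm_smul, y0, hx, norm_div]; norm_num
    have l3 : inner ℂ z0 ((k • po x y) z0) = k * (12 / 25) := by
      rw [smul_apply, inner_smul_right, l1]
    have l4 : ‖(k • po x y) z0‖ = 4 / 5 := by
      rw [smul_apply, norm_smul, l2, hk, one_mul]
    have r1 : (12 / 25 : ℂ).re = 12 / 25 := by norm_num
    have r2 : (12 / 25 : ℂ).im = 0 := by norm_num
    have r3 : (k * (12 / 25)).re = k.re * (12 / 25) := by
      rw [Complex.mul_re, r1, r2, mul_zero, sub_zero]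
    have r4 : (k * (12 / 25)).im = k.im * (12 / 25) := by
      rw [Complex.mul_im, r1, r2, mul_zero, zero_add]
    rw [l1, l2, l3, l4, r1, r2, r3, r4] at ht
    have s1 : √((4 / 5 : ℝ) ^ 2 - (12 / 25) ^ 2) = 16 / 25 := by
      rw [show ((4 / 5 : ℝ) ^ 2 - (12 / 25) ^ 2) = (16 / 25) ^ 2 by norm_num]
      exact Real.sqrt_sq (by norm_num)
    have s2 : (16 / 25 : ℝ) ≤ √((4 / 5 : ℝ) ^ 2 - (k.re * (12 / 25)) ^ 2) := by
      apply Real.le_sqrt_of_sq_le
      nlinarith [sq_nonneg k.im]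
    rw [s1, abs_zero, zero_add] at ht
    have s3 : |k.im * (12 / 25)| ≤ 0 := by linarith
    have s4 : k.im = 0 := by
      have := abs_nonpos_iff.1 s3
      linarith
    have s5 : k.re ^ 2 = 1 := by rw [s4] at hk3; linarith
    have s6 : k = 1 ∨ k = -1 := by
      rcases sq_eq_one_iff.1 s5 with h1 | h1
      · left; apply Complex.ext <;> simp [h1, s4]
      · right; apply Complex.ext <;> simp [h1, s4]
    rcases s6 with s6 | s6
    · left; rw [hk2, s6, one_smul]
    · right; rw [hk2, s6, neg_smul, one_smul]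
  · -- the impossible case
    exfalso
    set z0 : H := ((4 / 5 : ℝ) : ℂ) • x + ((3 / 5 : ℝ) : ℂ) • y with hz0
    have hz0n : ‖z0‖ = 1 := e7_unit hx hy h (by norm_num)
    have y0 : inner ℂ y z0 = 3 / 5 := by
      rw [hz0, inner_add_right, inner_smul_right, inner_smul_right, hyy, hyx]; push_cast; ring
    have x0 : inner ℂ x z0 = 4 / 5 := by
      rw [hz0, inner_add_right, inner_smul_right, inner_smul_right, hxx, h]; push_cast; ring
    have x0' : inner ℂ z0 x = 4 / 5 := by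
      rw [← inner_conj_symm, x0, map_div₀, map_ofNat, map_ofNat]
    have y0' : inner ℂ z0 y = 3 / 5 := by
      rw [← inner_conj_symm, y0, map_div₀, map_ofNat, map_ofNat]
    have ht := e7_P_slot2 hφ (po x y) hz0n
    rw [e_test_P _ hz0n, e_test_P _ hz0n, hk2] at ht
    have l1 : inner ℂ z0 (po x y z0) = 12 / 25 := by
      rw [po_apply, inner_smul_right, y0, x0']; norm_num
    have l2 : ‖po x y z0‖ = 3 / 5 := by
      rw [po_apply, norm_smul, y0, hx, norm_div]; norm_num
    have l3 : inner ℂ z0 ((k • po y x) z0) = k * (12 / 25) := by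
      rw [smul_apply, inner_smul_right, po_apply, inner_smul_right, x0, y0']; norm_num
    have l4 : ‖(k • po y x) z0‖ = 4 / 5 := by
      rw [smul_apply, norm_smul, hk, one_mul, po_apply, norm_smul, x0, hy, norm_div]; norm_num
    have r1 : (12 / 25 : ℂ).re = 12 / 25 := by norm_num
    have r2 : (12 / 25 : ℂ).im = 0 := by norm_num
    have r3 : (k * (12 / 25)).re = k.re * (12 / 25) := by
      rw [Complex.mul_re, r1, r2, mul_zero, sub_zero]
    rw [l1, l2, l3, l4, r1, r2, r3] at ht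
    have s1 : √((3 / 5 : ℝ) ^ 2 - (12 / 25) ^ 2) = 9 / 25 := by
      rw [show ((3 / 5 : ℝ) ^ 2 - (12 / 25) ^ 2) = (9 / 25) ^ 2 by norm_num]
      exact Real.sqrt_sq (by norm_num)
    have s2 : (16 / 25 : ℝ) ≤ √((4 / 5 : ℝ) ^ 2 - (k.re * (12 / 25)) ^ 2) := by
      apply Real.le_sqrt_of_sq_le
      nlinarith [sq_nonneg k.im]
    rw [s1, abs_zero, zero_add] at ht
    have := abs_nonneg (k * (12 / 25)).im
    linarith

theorem e_F1 (hφ : NormE φ) (hH : Dim2 H) (T : H →L[ℂ] H) {x y : H} (h : inner ℂ x y = 0) :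
    max ‖inner ℂ y (T x)‖ ‖inner ℂ x (T y)‖ = max ‖inner ℂ y (φ T x)‖ ‖inner ℂ x (φ T y)‖ := by
  have hunit : ∀ x y : H, ‖x‖ = 1 → ‖y‖ = 1 → inner ℂ x y = 0 →
      max ‖inner ℂ y (T x)‖ ‖inner ℂ x (T y)‖ = max ‖inner ℂ y (φ T x)‖ ‖inner ℂ x (φ T y)‖ := by
    intro x y hx hy h
    rw [← e_test_po_orth T h, ← e_test_po_orth (φ T) h, ← hφ.pres T (po x y)]
    rcases e_po_fixed hφ hH hx hy h with h1 | h1
    · rw [h1]
    · rw [h1, show -po x y = (-1 : ℂ) • po x y by rw [neg_smul, one_smul], e_smul_right, norm_neg,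
        norm_one, one_mul]
  by_cases hx0 : x = 0
  · subst hx0; simp
  by_cases hy0 : y = 0
  · subst hy0; simp
  have hnx : ‖x‖ ≠ 0 := norm_ne_zero_iff.2 hx0
  have hny : ‖y‖ ≠ 0 := norm_ne_zero_iff.2 hy0
  set x1 : H := ((‖x‖⁻¹ : ℝ) : ℂ) • x with hx1
  set y1 : H := ((‖y‖⁻¹ : ℝ) : ℂ) • y with hy1
  have hx1n : ‖x1‖ = 1 := by
    rw [hx1, norm_smul, Complex.norm_real, Real.norm_of_nonneg (by positivity)]
    exact inv_mul_cancel₀ hnx
  have hy1n : ‖y1‖ = 1 := by
    rw [hy1, norm_smul, Complex.norm_real, Real.norm_of_nonneg (by positivity)]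
    exact inv_mul_cancel₀ hny
  have hxx1 : x = ((‖x‖ : ℝ) : ℂ) • x1 := by
    rw [hx1, smul_smul, ← Complex.ofReal_mul, mul_inv_cancel₀ hnx, Complex.ofReal_one, one_smul]
  have hyy1 : y = ((‖y‖ : ℝ) : ℂ) • y1 := by
    rw [hy1, smul_smul, ← Complex.ofReal_mul, mul_inv_cancel₀ hny, Complex.ofReal_one, one_smul]
  have h1 : inner ℂ x1 y1 = 0 := by
    rw [hx1, hy1, inner_smul_left, inner_smul_right, h, mul_zero, mul_zero]
  have key := hunit x1 y1 hx1n hy1n h1
  have hsc : ∀ (R : H →L[ℂ] H), max ‖inner ℂ y (R x)‖ ‖inner ℂ x (R y)‖ =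
      ‖x‖ * ‖y‖ * max ‖inner ℂ y1 (R x1)‖ ‖inner ℂ x1 (R y1)‖ := by
    intro R
    have e1 : ‖inner ℂ y (R x)‖ = ‖x‖ * ‖y‖ * ‖inner ℂ y1 (R x1)‖ := by
      conv_lhs => rw [hxx1, hyy1]
      rw [map_smul, inner_smul_left, inner_smul_right, norm_mul, norm_mul, Complex.conj_ofReal,
        Complex.norm_real, Complex.norm_real, norm_norm, norm_norm]
      ring
    have e2 : ‖inner ℂ x (R y)‖ = ‖x‖ * ‖y‖ * ‖inner ℂ x1 (R y1)‖ := by
      conv_lhs => rw [hxx1, hyy1]
      rw [map_smul, inner_smul_left, inner_smul_right, norm_mul, norm_mul, Complex.conj_ofReal,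
        Complex.norm_real, Complex.norm_real, norm_norm, norm_norm]
      ring
    rw [e1, e2, mul_max_of_nonneg _ _ (by positivity)]
  rw [hsc T, hsc (φ T), key]

end e7

end PR
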